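import Pool.Agent.MTN.Stmts
import Pool.Agent.Helper78_MTD.Cst

/-! MTN, module FPZ: with the theorem of the fixed part the Mumford-Tate group of a Hodge generic fibre
contains all the others (complex points of large absolute value). -/

set_option autoImplicit false
set_option linter.unusedSectionVars false

namespace Pool.Agent.MTN.H92

open Matrix Pool.Agent.MT100 Pool.Agent.MT100G Pool.Agent.MT100A Pool.Agent.MT100D
  Pool.Agent.Helper78_MT Pool.Agent.MT100A.H64 Pool.Agent.Helper46_MT Pool.Agent.MTA.H64T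
open Pool.Agent.MT100A.H34 (e2 e2_val e2_tA eq_inv stable_of_pair Pup_idem Pup_range phi_eq trace_Pup
  card_add pth pth_cont pth_one pth_two pth_re pair_fil ue_smul mt_sub Hdg lie2 Pup)
open Pool.Agent.MT100D.H78C (hodgeAt_of_hdg hdg_of_hodgeAt per_li uni_iso set_eq)

universe u

variable {d : Type} [Fintype d] [DecidableEq d] {w : ℕ} {E E' : Matrix d d ℚ}
  {V V' : ℕ → Submodule ℂ (d → ℂ)} {lev : d → ℕ} {P : Matrix d d ℂ} {π : ℕ → Matrix d d ℂ}

/-! ### Tensors scaled by a common factor -/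

/-- the transform of a rational tensor by the generic matrix -/
noncomputable def gT (t : (Fin 4 → d) → ℚ) (α : Fin 4 → d) : MvPolynomial (d × d) ℚ :=
  tA (fun β => MvPolynomial.C (t β)) (Matrix.of fun i j => MvPolynomial.X (i, j)) α

theorem pev_gT (M : Matrix d d ℂ) (t : (Fin 4 → d) → ℚ) (α : Fin 4 → d) :
    pev M (gT t α) = tA (fun β => (t β : ℂ)) M α := by
  unfold gT tA
  rw [map_sum]
  refine Finset.sum_congr rfl fun β _ => ?_
  rw [map_mul, map_prod, pev_C, eq_ratCast]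
  congr 1
  refine Finset.prod_congr rfl fun j _ => ?_
  rw [Matrix.of_apply, pev_X]

/-- the equations `(t X)(α) s(α') = t(α) (s X)(α')` -/
noncomputable def qT (t s : (Fin 4 → d) → ℚ) (α α' : Fin 4 → d) : MvPolynomial (d × d) ℚ :=
  gT t α * MvPolynomial.C (s α') - MvPolynomial.C (t α) * gT s α'

theorem pev_qT (M : Matrix d d ℂ) (t s : (Fin 4 → d) → ℚ) (α α' : Fin 4 → d) :
    pev M (qT t s α α') = tA (fun β => (t β : ℂ)) M α * s α' -
      t α * tA (fun β => (s β : ℂ)) M α' := by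
  unfold qT
  rw [map_sub, map_mul, map_mul, pev_C, pev_C, pev_gT, pev_gT, eq_ratCast, eq_ratCast]

/-- the equations of the group of the matrices which multiply `t` and `s` by the same factor -/
def IT (t s : (Fin 4 → d) → ℚ) : Set (MvPolynomial (d × d) ℚ) :=
  {p | ∃ α α', p = qT t s α α' ∨ p = qT s s α α'}

theorem mem_IT {t s : (Fin 4 → d) → ℚ} {α0 : Fin 4 → d} (h0 : s α0 ≠ 0) (M : Matrix d d ℂ) :
    M ∈ zeros (IT t s) ℂ ↔ IsUnit M.det ∧ ∃ c : ℂ, tA (fun β => (t β : ℂ)) M = (fun β => c * t β) ∧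
      tA (fun β => (s β : ℂ)) M = fun β => c * s β := by
  have h0' : (s α0 : ℂ) ≠ 0 := by exact_mod_cast h0
  constructor
  · rintro ⟨hM, h⟩
    refine ⟨hM, tA (fun β => (s β : ℂ)) M α0 / s α0, ?_, ?_⟩
    · funext α
      have h1 := h _ ⟨α, α0, Or.inl rfl⟩
      rw [pev_qT, sub_eq_zero] at h1
      rw [div_mul_eq_mul_div, eq_div_iff h0', h1, mul_comm]
    · funext α
      have h1 := h _ ⟨α, α0, Or.inr rfl⟩
      rw [pev_qT, sub_eq_zero] at h1
      rw [div_mul_eq_mul_div, eq_div_iff h0', h1, mul_comm]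
  · rintro ⟨hM, c, h1, h2⟩
    refine ⟨hM, ?_⟩
    rintro _ ⟨α, α', rfl | rfl⟩
    · rw [pev_qT, h1, h2]
      ring
    · rw [pev_qT, h2]
      ring

theorem tA_mulc {k : ℕ} (t : (Fin k → d) → ℂ) (c : ℂ) (M : Matrix d d ℂ) :
    tA (fun β => c * t β) M = fun β => c * tA t M β := by
  funext α
  unfold tA
  rw [Finset.mul_sum]
  exact Finset.sum_congr rfl fun β _ => by ring

theorem isAlg_IT {t s : (Fin 4 → d) → ℚ} {α0 : Fin 4 → d} (h0 : s α0 ≠ 0) :
    IsAlgSubgroup (IT t s) := by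
  have h0' : (s α0 : ℂ) ≠ 0 := by exact_mod_cast h0
  refine ⟨?_, ?_, ?_⟩
  · rw [mem_IT h0]
    refine ⟨by rw [det_one]; exact isUnit_one, 1, ?_, ?_⟩
    · rw [H20.tA_one]
      funext β
      rw [one_mul]
    · rw [H20.tA_one]
      funext β
      rw [one_mul]
  · intro X hX Y hY
    rw [mem_IT h0] at hX hY ⊢
    obtain ⟨hX, c, hX1, hX2⟩ := hX
    obtain ⟨hY, c', hY1, hY2⟩ := hY
    refine ⟨by rw [det_mul]; exact hX.mul hY, c * c', ?_, ?_⟩
    · rw [← H20.tA_tA, hX1, tA_mulc, hY1]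
      funext β
      ring
    · rw [← H20.tA_tA, hX2, tA_mulc, hY2]
      funext β
      ring
  · intro X hX
    rw [mem_IT h0] at hX ⊢
    obtain ⟨hX, c, hX1, hX2⟩ := hX
    have hXX : X * X⁻¹ = 1 := Matrix.mul_nonsing_inv X hX
    have e1 : (fun β => (t β : ℂ)) = fun β => c * tA (fun β => (t β : ℂ)) X⁻¹ β := by
      rw [← tA_mulc, ← hX1, H20.tA_tA, hXX, H20.tA_one]
    have e2 : (fun β => (s β : ℂ)) = fun β => c * tA (fun β => (s β : ℂ)) X⁻¹ β := by
      rw [← tA_mulc, ← hX2, H20.tA_tA, hXX, H20.tA_one]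
    have hc : c ≠ 0 := by
      rintro rfl
      have := congrFun e2 α0
      simp only [zero_mul] at this
      exact h0' this
    refine ⟨?_, c⁻¹, ?_, ?_⟩
    · rw [Matrix.isUnit_nonsing_inv_det_iff]
      exact hX
    · funext β
      rw [congrFun e1 β, ← mul_assoc, inv_mul_cancel₀ hc, one_mul]
    · funext β
      rw [congrFun e2 β, ← mul_assoc, inv_mul_cancel₀ hc, one_mul]

/-- a Hodge form of degree four is multiplied by a character of the torus -/
theorem torus_tA {t : (Fin 4 → d) → ℚ} (ht : Hdg w V t) {z : ℂ} (hz0 : z ≠ 0)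
    {π : ℕ → Matrix d d ℂ} (h1 : ∀ p x, π p *ᵥ x ∈ V p)
    (hsum : ∑ p ∈ Finset.range (w + 1), π p = 1) :
    tA (fun β => (t β : ℂ)) (hz w π z) = fun β => (z * starRingEnd ℂ z) ^ (2 * w) * t β := by
  have hc : starRingEnd ℂ z ≠ 0 := (map_ne_zero _).2 hz0
  funext α
  have e1 : ∀ (M : Matrix d d ℂ), tA (fun β => (t β : ℂ)) M α =
      H34.tM t (fun j => M *ᵥ (Pi.single (α j) 1 : d → ℂ)) := by
    intro M
    rw [H34.tM_apply, tA_val, Finset.sum_eq_single α]
    · rw [Finset.prod_eq_one, mul_one]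
      intro j _
      rw [Pi.single_eq_same]
    · intro β _ hβ
      obtain ⟨j, hj⟩ := Function.ne_iff.1 hβ
      rw [Finset.prod_eq_zero (Finset.mem_univ j), mul_zero]
      rw [Pi.single_eq_of_ne hj]
    · intro h
      exact absurd (Finset.mem_univ _) h
  have e2 : H34.tM t (fun j => (Pi.single (α j) 1 : d → ℂ)) = t α := by
    have h2 := e1 1
    rw [H20.tA_one] at h2
    simp only [one_mulVec] at h2
    exact h2.symm
  rw [e1, hz_eq hz0]
  have e3 : (fun j => ((starRingEnd ℂ z) ^ w • Tc w π (z / starRingEnd ℂ z)) *ᵥ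
      (Pi.single (α j) 1 : d → ℂ)) = fun j => (fun _ : Fin 4 => (starRingEnd ℂ z) ^ w) j •
        (fun j => Tc w π (z / starRingEnd ℂ z) *ᵥ (Pi.single (α j) 1 : d → ℂ)) j := by
    funext j
    exact smul_mulVec _ _ _
  rw [e3, MultilinearMap.map_smul_univ, ht.scale h1 hsum, e2, Finset.prod_const, Finset.card_univ,
    Fintype.card_fin, smul_eq_mul, ← mul_assoc, ← pow_mul, div_pow, mul_pow]
  congr 1
  have h3 : w * 4 = 2 * w + 2 * w := by ring
  rw [h3, pow_add]
  field_simp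

/-- elements of the Mumford-Tate group which preserve `E` preserve the Hodge forms of degree four -/
theorem mt_tA (hV : PolHodge w E V) {t : (Fin 4 → d) → ℚ} (ht : Hdg w V t) {u : Matrix d d ℂ}
    (hu : u ∈ mtGroup w V ℂ)
    (hE : uᵀ * E.map (algebraMap ℚ ℂ) * u = E.map (algebraMap ℚ ℂ)) :
    tA (fun β => (t β : ℂ)) u = fun β => (t β : ℂ) := by
  rcases isEmpty_or_nonempty d with he | hne
  · funext α
    exact he.elim (α 0)
  obtain ⟨π, hπ, h1, h2, h3⟩ := proj_of hV
  have hdet := det_ne hV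
  have hE0 : E ≠ 0 := by
    rintro rfl
    rw [det_zero] at hdet
    exact hdet rfl
  obtain ⟨i, j, hij⟩ : ∃ i j, E i j ≠ 0 := by
    by_contra hcon
    push Not at hcon
    exact hE0 (by ext i j; exact hcon i j)
  obtain ⟨s, hs⟩ : ∃ s : (Fin 4 → d) → ℚ, s = zt E 1 := ⟨_, rfl⟩
  obtain ⟨α0, hα0⟩ : ∃ α0 : Fin 4 → d, s α0 ≠ 0 := by
    refine ⟨![i, j, i, j], ?_⟩
    rw [hs]
    simp only [zt, Matrix.cons_val_zero, Matrix.cons_val_one, Matrix.cons_val, Matrix.mul_one]
    exact mul_ne_zero hij hij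
  have hsH : Hdg w V s := by
    intro p x hx hp
    rw [hs, zt_val]
    have h4 : E.map (algebraMap ℚ ℂ) * (1 : Matrix d d ℚ).map (algebraMap ℚ ℂ) =
        E.map (algebraMap ℚ ℂ) := by
      rw [Matrix.map_one _ (map_zero _) (map_one _), Matrix.mul_one]
    rw [h4]
    by_cases h01 : p 0 + p 1 = w
    · have h23 : p 2 + p 3 ≠ w := by
        intro h23
        apply hp
        rw [Fin.sum_univ_four]
        omega
      rw [hV.orth (p 2) (p 3) h23 _ (hx 2) _ (hx 3), mul_zero]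
    · rw [hV.orth (p 0) (p 1) h01 _ (hx 0) _ (hx 1), zero_mul]
  have hus : tA (fun β => (s β : ℂ)) u = fun β => (s β : ℂ) := by
    funext α
    have e1 : tA (fun β => (s β : ℂ)) u α = ∑ β, (s β : ℂ) *
        ∏ j, (u *ᵥ (Pi.single (α j) 1 : d → ℂ)) (β j) := by
      rw [tA_val, Finset.sum_eq_single α]
      · rw [Finset.prod_eq_one, mul_one]
        intro j _
        rw [Pi.single_eq_same]
      · intro β _ hβ
        obtain ⟨j, hj⟩ := Function.ne_iff.1 hβ
        rw [Finset.prod_eq_zero (Finset.mem_univ j), mul_zero]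
        rw [Pi.single_eq_of_ne hj]
      · intro h
        exact absurd (Finset.mem_univ _) h
    have e2 : (s α : ℂ) = ∑ β, (s β : ℂ) * ∏ j, (Pi.single (α j) 1 : d → ℂ) (β j) := by
      rw [Finset.sum_eq_single α]
      · rw [Finset.prod_eq_one, mul_one]
        intro j _
        rw [Pi.single_eq_same]
      · intro β _ hβ
        obtain ⟨j, hj⟩ := Function.ne_iff.1 hβ
        rw [Finset.prod_eq_zero (Finset.mem_univ j), mul_zero]
        rw [Pi.single_eq_of_ne hj]
      · intro h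
        exact absurd (Finset.mem_univ _) h
    have h4 : E.map (algebraMap ℚ ℂ) * (1 : Matrix d d ℚ).map (algebraMap ℚ ℂ) =
        E.map (algebraMap ℚ ℂ) := by
      rw [Matrix.map_one _ (map_zero _) (map_one _), Matrix.mul_one]
    have h5 : ∀ x y : d → ℂ, (u *ᵥ x) ⬝ᵥ (E.map (algebraMap ℚ ℂ) *ᵥ (u *ᵥ y)) =
        x ⬝ᵥ (E.map (algebraMap ℚ ℂ) *ᵥ y) := by
      intro x y
      conv_rhs => rw [← hE]
      rw [← mulVec_mulVec, ← mulVec_mulVec, mulVec_transpose, dotProduct_comm x,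
        ← dotProduct_mulVec, dotProduct_comm]
    rw [e1, e2, hs, zt_val, zt_val, h4, h5, h5]
  have hmem := hu (IT t s) (isAlg_IT hα0) (by
    intro T hT
    rw [mem_IT hα0]
    obtain ⟨z, hz0, rfl⟩ := H34.torus_eq hV hπ h2 hT
    exact ⟨(torus_sim hV hT).1, _, torus_tA ht hz0 h1 hπ.sum, torus_tA hsH hz0 h1 hπ.sum⟩)
  rw [mem_IT hα0] at hmem
  obtain ⟨-, c, hc1, hc2⟩ := hmem
  have h0' : (s α0 : ℂ) ≠ 0 := by exact_mod_cast hα0
  have hc : c = 1 := by
    have h4 := congrFun hc2 α0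
    rw [hus] at h4
    exact (mul_eq_right₀ h0').1 h4.symm
  rw [hc1, hc]
  funext β
  rw [one_mul]

/-! ### The fundamental matrix on the universal cover of the neighbourhood of infinity -/

/-- the fundamental matrix at `exp ζ` -/
noncomputable def GG (F : Family d) (ζ : ℂ) : Matrix d d ℂ :=
  F.H.map (fun f => evC f (Complex.exp (-ζ))) * eN F.N (-ζ) * ed F.δ (-ζ)

theorem Y_eq (F : Family d) {x : ℂ} (hx : x ≠ 0) : F.Y x = GG F (Complex.log x) := by
  unfold Family.Y YD YH GG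
  rw [Complex.exp_neg, Complex.exp_log hx]

theorem near (F : Family d) : ∃ R0 : ℝ, 0 < R0 ∧ (∀ ζ : ℂ, Real.log R0 < ζ.re →
      IsUnit (GG F ζ).det) ∧
    ∀ i j, ContinuousOn (fun ζ : ℂ => GG F ζ i j) {ζ | Real.log R0 < ζ.re} := by
  have hS := F.sys
  have hH := fun i j => MT100G.H43.gtype_near (hS.gH i j)
  have hK := fun i j => MT100G.H43.gtype_near (hS.gK i j)
  choose δH hδH hHx using hH
  choose δK hδK hKx using hK
  obtain ⟨δ, hδ, hδl⟩ : ∃ δ : ℝ, 0 < δ ∧ ∀ i j, δ ≤ δH i j ∧ δ ≤ δK i j := by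
    have h1 : ∀ s : Finset (d × d), ∃ δ : ℝ, 0 < δ ∧
        ∀ p ∈ s, δ ≤ δH p.1 p.2 ∧ δ ≤ δK p.1 p.2 := by
      intro s
      induction s using Finset.induction_on with
      | empty => exact ⟨1, one_pos, fun p hp => absurd hp (Finset.notMem_empty p)⟩
      | insert a s ha ih =>
        obtain ⟨δ, h1, h3⟩ := ih
        refine ⟨min δ (min (δH a.1 a.2) (δK a.1 a.2)), lt_min h1 (lt_min (hδH _ _) (hδK _ _)),
          fun p hp => ?_⟩
        rcases Finset.mem_insert.mp hp with rfl | hp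
        · exact ⟨(min_le_right _ _).trans (min_le_left _ _),
            (min_le_right _ _).trans (min_le_right _ _)⟩
        · exact ⟨(min_le_left _ _).trans (h3 p hp).1, (min_le_left _ _).trans (h3 p hp).2⟩
    obtain ⟨δ, h1, h3⟩ := h1 Finset.univ
    exact ⟨δ, h1, fun i j => h3 (i, j) (Finset.mem_univ _)⟩
  have hgood : ∀ ζ : ℂ, Real.log (1 / δ) < ζ.re → ‖Complex.exp (-ζ)‖ < δ := by
    intro ζ hζ
    rw [Complex.norm_exp, Complex.neg_re]
    have h1 : Real.log (1 / δ) = - Real.log δ := by rw [one_div, Real.log_inv]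
    rw [h1] at hζ
    calc Real.exp (-ζ.re) < Real.exp (Real.log δ) := Real.exp_lt_exp.2 (by linarith)
      _ = δ := Real.exp_log hδ
  refine ⟨1 / δ, by positivity, fun ζ hζ => ?_, fun i j => ?_⟩
  · have hn := hgood ζ hζ
    obtain ⟨x, hx⟩ : ∃ x, x = Complex.exp (-ζ) := ⟨_, rfl⟩
    rw [← hx] at hn
    have hA : ∀ i j, MT100G.H43.AC (F.H i j) x := fun i j =>
      (hHx i j x (lt_of_lt_of_le hn (hδl i j).1)).1
    have hA' : ∀ i j, MT100G.H43.AC (F.K i j) x := fun i j =>
      (hKx i j x (lt_of_lt_of_le hn (hδl i j).2)).1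
    have hHK : F.H.map (fun f => evC f x) * F.K.map (fun f => evC f x) = 1 := by
      rw [← (MT100G.H43.ac_mmul hA hA').2, hS.inv]
      ext i j
      rw [Matrix.map_apply, Matrix.one_apply, Matrix.one_apply]
      by_cases hij : i = j
      · rw [if_pos hij, if_pos hij]
        have := (MT100G.H43.ac_int 1 x).2
        rwa [Int.cast_one, Int.cast_one] at this
      · rw [if_neg hij, if_neg hij]
        have := (MT100G.H43.ac_int 0 x).2
        rwa [Int.cast_zero, Int.cast_zero] at this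
    unfold GG
    rw [← hx, Matrix.det_mul, Matrix.det_mul]
    refine IsUnit.mul (IsUnit.mul ?_ ?_) ?_
    · have := congrArg Matrix.det hHK
      rw [Matrix.det_mul, Matrix.det_one] at this
      exact IsUnit.of_mul_eq_one _ this
    · have := congrArg Matrix.det (MT100G.H43.eN_mul_neg F.N hS.nil (-ζ))
      rw [Matrix.det_mul, Matrix.det_one] at this
      exact IsUnit.of_mul_eq_one _ this
    · unfold ed
      rw [Matrix.det_diagonal, isUnit_iff_ne_zero]
      exact Finset.prod_ne_zero_iff.2 fun i _ => Complex.exp_ne_zero _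
  · have he : (fun ζ : ℂ => GG F ζ i j) = fun ζ => (∑ k, evC (F.H i k) (Complex.exp (-ζ)) *
        eN F.N (-ζ) k j) * Complex.exp ((F.δ j : ℂ) * -ζ) := by
      funext ζ
      unfold GG ed
      rw [Matrix.mul_diagonal, Matrix.mul_apply]
      rfl
    rw [he]
    refine ContinuousOn.mul ?_ (by fun_prop)
    refine continuousOn_finsetSum _ fun k _ => ContinuousOn.mul ?_ ?_
    · intro ζ hζ
      have h1 := (hHx i k (Complex.exp (-ζ)) (lt_of_lt_of_le (hgood ζ hζ) (hδl i k).1)).2.2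
      have h2 : ContinuousAt (fun ζ : ℂ => Complex.exp (-ζ)) ζ := by fun_prop
      exact (ContinuousAt.comp (g := evC (F.H i k)) (f := fun ζ : ℂ => Complex.exp (-ζ))
        h1.continuousAt h2).continuousWithinAt
    · intro ζ hζ
      have h1 := MT100G.H43.eN_deriv F.N hS.nil (-ζ) k j
      have h2 : ContinuousAt (fun ζ : ℂ => -ζ) ζ := by fun_prop
      exact (ContinuousAt.comp (g := fun y => eN F.N y k j) (f := fun ζ : ℂ => -ζ)
        h1.continuousAt h2).continuousWithinAt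

/-- the path from `x` to `y` outside of the disc -/
noncomputable def qth (x y : ℂ) (s : ℝ) : ℂ := Complex.exp (pth (Complex.log x) (Complex.log y) s)

theorem pth_im {x y : ℂ} {a b : ℝ} (hx : a < x.im ∧ x.im ≤ b) (hy : a < y.im ∧ y.im ≤ b) (s : ℝ) :
    a < (pth x y s).im ∧ (pth x y s).im ≤ b := by
  unfold pth
  obtain ⟨u, hu⟩ : ∃ u, u = max 0 (min 1 (s - 1)) := ⟨_, rfl⟩
  have h0 : 0 ≤ u := by rw [hu]; exact le_max_left _ _
  have h1 : u ≤ 1 := by
    rw [hu]
    exact max_le zero_le_one (min_le_left _ _)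
  rw [← hu, Complex.add_im, Complex.im_ofReal_mul, Complex.sub_im]
  have e : x.im + u * (y.im - x.im) = (1 - u) * x.im + u * y.im := by ring
  rw [e]
  constructor
  · rcases h0.lt_or_eq with h2 | h2
    · nlinarith [mul_pos h2 (sub_pos.2 hy.1), mul_nonneg (sub_nonneg.2 h1) (sub_pos.2 hx.1).le]
    · rw [← h2]
      linarith [hx.1]
  · nlinarith [mul_nonneg h0 (sub_nonneg.2 hy.2), mul_nonneg (sub_nonneg.2 h1) (sub_nonneg.2 hx.2)]

theorem log_im (x : ℂ) : -Real.pi < (Complex.log x).im ∧ (Complex.log x).im ≤ Real.pi :=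
  ⟨Complex.neg_pi_lt_log_im x, Complex.log_im_le_pi x⟩

theorem log_qth (x y : ℂ) (s : ℝ) :
    Complex.log (qth x y s) = pth (Complex.log x) (Complex.log y) s := by
  have h := pth_im (log_im x) (log_im y) s
  exact Complex.log_exp h.1 h.2

theorem log_re_lt {R : ℝ} (hR : 0 < R) {x : ℂ} (hx : R < ‖x‖) : Real.log R < (Complex.log x).re := by
  rw [Complex.log_re]
  exact Real.log_lt_log hR hx

theorem qth_norm {R : ℝ} (hR : 0 < R) {x y : ℂ} (hx : R < ‖x‖) (hy : R < ‖y‖) (s : ℝ) :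
    R < ‖qth x y s‖ := by
  have h := pth_re (log_re_lt hR hx) (log_re_lt hR hy) s
  unfold qth
  rw [Complex.norm_exp]
  calc R = Real.exp (Real.log R) := (Real.exp_log hR).symm
    _ < _ := Real.exp_lt_exp.2 h

theorem qth_one {x y : ℂ} (hx : x ≠ 0) : qth x y 1 = x := by
  unfold qth
  rw [pth_one, Complex.exp_log hx]

theorem qth_two {x y : ℂ} (hy : y ≠ 0) : qth x y 2 = y := by
  unfold qth
  rw [pth_two, Complex.exp_log hy]

theorem ne_of_norm {R : ℝ} (hR : 0 < R) {x : ℂ} (hx : R < ‖x‖) : x ≠ 0 := by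
  rintro rfl
  rw [norm_zero] at hx
  linarith

theorem per_qth_cont (F : Family d) {R0 R : ℝ} (hR0 : 0 < R0) (hR : R0 ≤ R)
    (hc : ∀ i j, ContinuousOn (fun ζ : ℂ => GG F ζ i j) {ζ | Real.log R0 < ζ.re})
    {x y : ℂ} (hx : R < ‖x‖) (hy : R < ‖y‖) (a : d) (A : Set ℝ) :
    ContinuousOn (fun s : ℝ => F.per P (qth x y s) a) A := by
  have hRp : 0 < R := lt_of_lt_of_le hR0 hR
  have he : (fun s : ℝ => F.per P (qth x y s) a) = fun s : ℝ => fun i =>
      ∑ j, P i j * GG F (pth (Complex.log x) (Complex.log y) s) a j := by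
    funext s i
    unfold Family.per
    rw [Y_eq F (ne_of_norm hRp (qth_norm hRp hx hy s)), log_qth]
    rfl
  rw [he]
  refine continuousOn_pi.2 fun i => continuousOn_finsetSum _ fun j _ => continuousOn_const.mul ?_
  refine (hc a j).comp (pth_cont _ _).continuousOn fun s _ => ?_
  exact lt_of_le_of_lt (Real.log_le_log hR0 hR)
    (pth_re (log_re_lt hRp hx) (log_re_lt hRp hy) s)

/-! ### The theorem of the fixed part -/

/-- an invariant bilinear Hodge tensor at one point is a Hodge tensor at all the points -/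
theorem pair_all (F : Family d) {R : ℝ} (hFP : FixedC F lev P w R) {A : Matrix d d ℚ}
    (hA : ∀ u ∈ Uni (F.Mo P), uᵀ * A.map (algebraMap ℚ ℂ) * u = A.map (algebraMap ℚ ℂ))
    {x y : ℂ} (hx : R < ‖x‖) (hy : R < ‖y‖)
    (h : ∀ a b : d, w < lev a + lev b →
      F.per P x a ⬝ᵥ (A.map (algebraMap ℚ ℂ) *ᵥ F.per P x b) = 0) :
    ∀ a b : d, w < lev a + lev b →
      F.per P y a ⬝ᵥ (A.map (algebraMap ℚ ℂ) *ᵥ F.per P y b) = 0 := by
  intro a b hab
  have h1 : F.HodgeAt lev P w x (e2 A) := by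
    intro c hc
    rw [Fin.sum_univ_two] at hc
    rw [e2_val A fun j => F.per P x (c j)]
    exact h (c 0) (c 1) (by omega)
  have h2 := hFP 2 (e2 A) (fun u hu => e2_tA A (hA u hu)) x y hx hy h1 ![a, b] (by
    rw [Fin.sum_univ_two]
    simp only [Matrix.cons_val_zero, Matrix.cons_val_one]
    omega)
  rw [e2_val A fun j => F.per P y (![a, b] j)] at h2
  exact h2

/-- the Deligne torus of the Hodge structure at `y` is contained in the Mumford-Tate group at `x` -/
theorem torus_sub (F : Family d) (hP : IsUnit P.det) (hw : 1 ≤ w) {R0 : ℝ} (hR0 : 0 < R0)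
    (hdet : ∀ ζ : ℂ, Real.log R0 < ζ.re → IsUnit (GG F ζ).det)
    (hcont : ∀ i j, ContinuousOn (fun ζ : ℂ => GG F ζ i j) {ζ | Real.log R0 < ζ.re})
    {R : ℝ} (hR : R0 ≤ R) (hFP : FixedC F lev P w R) {x0 : ℂ} (hn : R < ‖x0‖)
    (hF : FibreC F lev P w x0 E V)
    (hinv : ∀ t : (Fin 4 → d) → ℚ, Hdg w V t → ∀ u ∈ Uni (F.Mo P),
      tA (fun β => (t β : ℂ)) u = fun β => (t β : ℂ))
    {x : ℂ} (hx : R < ‖x‖)
    (hV' : PolHodge w E' V') (hFil' : F.HasFil lev P x V') :
    hodgeTorus w V' ⊆ mtGroup w V ℂ := by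
  classical
  have hRp : 0 < R := lt_of_lt_of_le hR0 hR
  obtain ⟨hV, hInv, hFil⟩ := hF
  refine lie2 hw hV hV' ?_ ?_
  · intro t ht
    refine hdg_of_hodgeAt F hV' hFil' ?_
    exact hFP 4 t (hinv t ht) x0 x hn hx (hodgeAt_of_hdg F hFil ht)
  · intro Q hQ hQ' hz π π' hπ hπ' h1 h1' h2 h2'
    have hFd : IsUnit (E.map (algebraMap ℚ ℂ)).det := det_map (det_ne hV)
    have hmem : ∀ (p : ℕ) (a : d), p ≤ lev a → F.per P x0 a ∈ ⨆ p' ∈ Set.Ici p, V p' := by
      intro p a ha
      rw [hFil p]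
      exact Submodule.subset_span ⟨a, ha, rfl⟩
    have hE : ∀ y : ℂ, R < ‖y‖ → ∀ a b : d, w < lev a + lev b →
        F.per P y a ⬝ᵥ (E.map (algebraMap ℚ ℂ) *ᵥ F.per P y b) = 0 := by
      intro y hy
      refine pair_all F hFP (fun u hu => uni_iso F hInv hu) hn hy fun a b hab => ?_
      have h3 := pair_fil hV (Q := 1) (fun p x hx => by rwa [one_mulVec]) hab
        (hmem (lev a) a (le_refl _)) (hmem (lev b) b (le_refl _))
      rwa [one_mulVec] at h3
    have hEQ : ∀ y : ℂ, R < ‖y‖ → ∀ a b : d, w < lev a + lev b →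
        F.per P y a ⬝ᵥ ((E * Q).map (algebraMap ℚ ℂ) *ᵥ F.per P y b) = 0 := by
      intro y hy
      refine pair_all F hFP (fun u hu => ?_) hn hy fun a b hab => ?_
      · exact eq_inv hFd (uni_iso F hInv hu) (hinv _ hz u hu)
      · have h3 := pair_fil hV (Q := Q.map (algebraMap ℚ ℂ)) hQ hab
          (hmem (lev a) a (le_refl _)) (hmem (lev b) b (le_refl _))
        rw [Matrix.map_mul, ← mulVec_mulVec]
        exact h3
    have hli : ∀ y : ℂ, R < ‖y‖ → LinearIndependent ℂ (F.per P y) := fun y hy =>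
      per_li F hP (by
        rw [Y_eq F (ne_of_norm hRp hy)]
        exact hdet _ (lt_of_le_of_lt (Real.log_le_log hR0 hR) (log_re_lt hRp hy)))
    -- the filtration is preserved at every point
    have hst : ∀ y : ℂ, R < ‖y‖ → ∀ p < w, ∀ a ∈ {a : d | p + 1 ≤ lev a},
        (Q.map (algebraMap ℚ ℂ)).mulVec (F.per P y a) ∈
          Submodule.span ℂ (F.per P y '' {a : d | p + 1 ≤ lev a}) := by
      intro y hy p hp
      refine stable_of_pair (hli y hy) hFd {a : d | p + 1 ≤ lev a} {a : d | w - p ≤ lev a} ?_ ?_ ?_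
      · exact card_add hV hπ h1 h2 (hli x0 hn) (fun p => by rw [hFil p, set_eq]) hp.le
      · intro a ha b hb
        exact hE y hy b a (by
          have h3 : p + 1 ≤ lev a := ha
          have h4 : w - p ≤ lev b := hb
          omega)
      · intro a ha b hb
        have h3 := hEQ y hy b a (by
          have h3 : p + 1 ≤ lev a := ha
          have h4 : w - p ≤ lev b := hb
          omega)
        rw [Matrix.map_mul] at h3
        exact h3
    -- the traces
    have htr : ∀ p < w, (Q.map (algebraMap ℚ ℂ) * Pup w π (p + 1)).trace =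
        (Q.map (algebraMap ℚ ℂ) * Pup w π' (p + 1)).trace := by
      intro p hp
      obtain ⟨A, hA⟩ : ∃ A : Set d, {a : d | p + 1 ≤ lev a} = A := ⟨_, rfl⟩
      have hst' : ∀ y : ℂ, R < ‖y‖ → ∀ a ∈ A, (Q.map (algebraMap ℚ ℂ)).mulVec (F.per P y a) ∈
          Submodule.span ℂ (F.per P y '' A) := by
        intro y hy
        rw [← hA]
        exact hst y hy p hp
      obtain ⟨c, hc⟩ := trc (R := 0) (per := fun s a => F.per P (qth x0 x s) a)
        (fun a => per_qth_cont F hR0 hR hcont hn hx a _)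
        (fun s _ => hli _ (qth_norm hRp hn hx s)) A (Q.map (algebraMap ℚ ℂ))
        (fun s _ a ha => hst' _ (qth_norm hRp hn hx s) a ha)
      obtain ⟨N, hN⟩ := exN A (Q.map (algebraMap ℚ ℂ)) (hst' x0 hn)
      obtain ⟨N', hN'⟩ := exN A (Q.map (algebraMap ℚ ℂ)) (hst' x hx)
      have h3 := hc 1 one_pos N (by
        simp only [qth_one (ne_of_norm hRp hn)]
        exact hN)
      have h4 := hc 2 two_pos N' (by
        simp only [qth_two (ne_of_norm hRp hx)]
        exact hN')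
      have h5 := trp (hli x0 hn) A _ N hN (Pup w π (p + 1))
        (Pup_idem hπ _) (by rw [Pup_range hV.top hπ h1 h2, hFil, set_eq, hA])
      have h6 := trp (hli x hx) A _ N' hN' (Pup w π' (p + 1))
        (Pup_idem hπ' _) (by rw [Pup_range hV'.top hπ' h1' h2', hFil', set_eq, hA])
      rw [h5, h6, h3, h4]
    rw [phi_eq, phi_eq, Finset.mul_sum, Finset.mul_sum, trace_sum, trace_sum]
    exact Finset.sum_congr rfl fun p hp => htr p (Finset.mem_range.1 hp)

/-- the unipotents are in the Mumford-Tate group if it is `GenM` -/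
theorem uni_of {M : Set (Matrix d d ℂ)}
    (hmt : ∀ (K : Type u) [Field K] [CharZero K], mtGroup w V K = GenM M w V K) :
    ∀ u ∈ Uni M, u ∈ mtGroup w V ℂ := by
  intro u hu
  obtain ⟨φ, hφ⟩ : ∃ φ : ℂ ≃+* ULift.{u} ℂ, φ = ULift.ringEquiv.symm := ⟨_, rfl⟩
  have hcz : CharZero (ULift.{u} ℂ) := charZero_of_injective_ringHom (f := (φ : ℂ →+* _)) φ.injective
  have h1 : u.map φ ∈ GenM M w V (ULift.{u} ℂ) := by
    intro I hI hT hU
    obtain ⟨h2, h3⟩ := hU u hu
    refine ⟨?_, fun p hp => ?_⟩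
    · have h4 := h2.map (φ : ℂ →+* ULift.{u} ℂ)
      rw [RingHom.map_det, RingHom.mapMatrix_apply] at h4
      exact h4
    · have h4 : pev (u.map φ) p = φ (pev u p) :=
        Helper3_MT.pev_hom (φ : ℂ →+* ULift.{u} ℂ) u p
      rw [h4, h3 p hp, map_zero]
  rw [← hmt] at h1
  intro I hI hT
  obtain ⟨h2, h3⟩ := h1 I hI hT
  refine ⟨?_, fun p hp => ?_⟩
  · have h4 := h2.map (φ.symm : ULift.{u} ℂ →+* ℂ)
    rw [RingHom.map_det, RingHom.mapMatrix_apply] at h4
    have h5 : (u.map φ).map (φ.symm : ULift.{u} ℂ →+* ℂ) = u := by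
      ext i j
      simp
    rw [h5] at h4
    exact h4
  · have h4 : pev (u.map φ) p = φ (pev u p) :=
      Helper3_MT.pev_hom (φ : ℂ →+* ULift.{u} ℂ) u p
    have h5 := h3 p hp
    rw [h4] at h5
    exact (map_eq_zero_iff φ φ.injective).1 h5

/-- FPZ -/
theorem fpz : FpzStmt.{u} := by
  intro d _ _ F w lev hw
  obtain ⟨R0, hR0, hdet, hcont⟩ := near F
  refine ⟨R0, fun P R hP hInt hR hFP x y hx hy E E' V V' hF hmt hV' hFil' K _ _ => ?_⟩
  refine mt_sub (torus_sub F hP hw hR0 hdet hcont hR hFP hx hF ?_ hy hV' hFil') K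
  intro t ht u hu
  exact mt_tA hF.1 ht (uni_of hmt u hu) (uni_iso F hF.2.1 hu)

end Pool.Agent.MTN.H92
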